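import Pool.Agent.LE.StmtsQD
import Pool.Agent.Helper76_LSP.Tor

/-! Beyond the mean free path, row DSU: the density of states on the torus, upper bound. -/

set_option autoImplicit false
set_option linter.unusedSectionVars false

open MeasureTheory Set Function

open scoped ENNReal BigOperators Topology NNReal

noncomputable section

namespace Pool.Agent.LE.QD.H38

open Pool.Agent.Anderson hiding box mem_box card_box
open Pool.Agent.Loc Pool.Agent.Mob Pool.Agent.Helper54.Bal
  Pool.Agent.Helper96.EXP Pool.Agent.BED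
open Pool.Agent.LE.MN Pool.Agent.LE.CL Pool.Agent.LE.IR
open Pool.Agent.LE.CL.H76 (cov mp_cov)

local instance haarMSq : MeasureSpace UnitAddCircle := ⟨AddCircle.haarAddCircle⟩

local instance haarAHq : Measure.IsAddHaarMeasure (volume : Measure UnitAddCircle) :=
  inferInstanceAs (Measure.IsAddHaarMeasure AddCircle.haarAddCircle)

local instance haarPMq : IsProbabilityMeasure (volume : Measure UnitAddCircle) :=
  inferInstanceAs (IsProbabilityMeasure AddCircle.haarAddCircle)

variable {d M : ℕ} [NeZero M]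

/-- the symbol as a function of the coordinates -/
def sc (x : Fin d → ℝ) : ℝ := ∑ i, 2 * Real.cos (2 * Real.pi * x i)

theorem sy_cov (x : Fin d → ℝ) : sy (cov x) = sc x := by
  unfold sy sc
  refine Finset.sum_congr rfl fun i _ => ?_
  unfold Pool.Agent.Anderson.c2 cov
  rw [u_coe]
  have h : (2 * (Real.pi : ℂ) * (x i : ℂ) * Complex.I) =
      ((2 * Real.pi * x i : ℝ) : ℂ) * Complex.I := by
    push_cast
    ring
  rw [h, Complex.exp_ofReal_mul_I_re]

theorem continuous_sc : Continuous (sc (d := d)) := by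
  unfold sc
  fun_prop

theorem integral_cov {f : UnitAddTorus (Fin d) → ℝ} (hf : Continuous f) :
    ∫ θ, f θ = ∫ x in Set.pi Set.univ fun _ => Ioc (0 : ℝ) 1, f (cov x) := by
  have h1 : AEStronglyMeasurable f
      (Measure.map (cov (d := d)) (volume.restrict (Set.pi Set.univ fun _ => Ioc (0 : ℝ) 1))) := by
    rw [mp_cov.map_eq]
    exact hf.aestronglyMeasurable
  rw [← integral_map mp_cov.measurable.aemeasurable h1, mp_cov.map_eq]

/-- the corner of the cell of `p` -/
def pt (p : Tor d M) (i : Fin d) : ℝ := ((p i).val : ℝ) / M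

theorem es_eq (p : Tor d M) : es p = sc (pt p) := by
  unfold es ds sc
  have h1 : ∀ i : Fin d, Real.cos (2 * Real.pi * ((p i).valMinAbs : ℝ) / M) =
      Real.cos (2 * Real.pi * pt p i) := by
    intro i
    unfold pt
    rw [ZMod.valMinAbs_def_pos]
    split_ifs
    · push_cast
      rw [mul_div_assoc]
    · have hM : (M : ℝ) ≠ 0 := by exact_mod_cast NeZero.ne M
      have h2 : 2 * Real.pi * ((((p i).val : ℤ) - (M : ℤ) : ℤ) : ℝ) / M =
          2 * Real.pi * (((p i).val : ℝ) / M) - 2 * Real.pi := by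
        push_cast
        field_simp
      rw [h2, Real.cos_sub_two_pi]
  have h3 : ∑ i : Fin d, 2 * (1 - Real.cos (2 * Real.pi * ((p i).valMinAbs : ℝ) / M)) =
      ∑ i : Fin d, (2 - 2 * Real.cos (2 * Real.pi * pt p i)) :=
    Finset.sum_congr rfl fun i _ => by rw [h1 i]; ring
  rw [h3, Finset.sum_sub_distrib, Finset.sum_const, Finset.card_univ, Fintype.card_fin,
    nsmul_eq_mul]
  ring

/-- the cell of `p` -/
def cell (p : Tor d M) : Set (Fin d → ℝ) :=
  Set.pi Set.univ fun i => Ioc (pt p i) (pt p i + 1 / M)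

theorem measurableSet_cell (p : Tor d M) : MeasurableSet (cell p) :=
  MeasurableSet.univ_pi fun _ => measurableSet_Ioc

theorem volume_cell (p : Tor d M) : volume.real (cell p) = ((M : ℝ) ^ d)⁻¹ := by
  unfold cell
  rw [Measure.real, Real.volume_pi_Ioc, ENNReal.toReal_prod]
  have h1 : ∀ i : Fin d, (ENNReal.ofReal (pt p i + 1 / M - pt p i)).toReal = (M : ℝ)⁻¹ := by
    intro i
    rw [add_sub_cancel_left, ENNReal.toReal_ofReal (by positivity), one_div]
  rw [Finset.prod_congr rfl fun i _ => h1 i, Finset.prod_const, Finset.card_univ,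
    Fintype.card_fin, inv_pow]

theorem cell_sub (p : Tor d M) : cell p ⊆ Set.pi Set.univ fun _ => Ioc (0 : ℝ) 1 := by
  intro x hx i hi
  have hM : (0 : ℝ) < M := by exact_mod_cast Nat.pos_of_ne_zero (NeZero.ne M)
  have h1 := hx i hi
  have h2 : (0 : ℝ) ≤ pt p i := by unfold pt; positivity
  have h3 : pt p i + 1 / M ≤ 1 := by
    unfold pt
    rw [← add_div, div_le_one hM]
    have := ZMod.val_lt (p i)
    exact_mod_cast this
  exact ⟨h2.trans_lt h1.1, h1.2.trans h3⟩

theorem cell_disj (p q : Tor d M) (h : p ≠ q) : Disjoint (cell p) (cell q) := by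
  rw [Set.disjoint_left]
  intro x hp hq
  apply h
  funext i
  have hM : (0 : ℝ) < M := by exact_mod_cast Nat.pos_of_ne_zero (NeZero.ne M)
  have h1 : x i ∈ Ioc (pt p i) (pt p i + 1 / M) := hp i (Set.mem_univ i)
  have h2 : x i ∈ Ioc (pt q i) (pt q i + 1 / M) := hq i (Set.mem_univ i)
  unfold pt at h1 h2
  rw [← add_div] at h1 h2
  have a1 : ((p i).val : ℝ) < M * x i := by
    have := h1.1
    rw [div_lt_iff₀ hM] at this
    linarith
  have a2 : M * x i ≤ ((p i).val : ℝ) + 1 := by
    have := h1.2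
    rw [le_div_iff₀ hM] at this
    linarith
  have b1 : ((q i).val : ℝ) < M * x i := by
    have := h2.1
    rw [div_lt_iff₀ hM] at this
    linarith
  have b2 : M * x i ≤ ((q i).val : ℝ) + 1 := by
    have := h2.2
    rw [le_div_iff₀ hM] at this
    linarith
  have c1 : ((p i).val : ℝ) < ((q i).val : ℝ) + 1 := a1.trans_le b2
  have c2 : ((q i).val : ℝ) < ((p i).val : ℝ) + 1 := b1.trans_le a2
  have c3 : (p i).val < (q i).val + 1 := by exact_mod_cast c1
  have c4 : (q i).val < (p i).val + 1 := by exact_mod_cast c2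
  exact ZMod.val_injective M (by omega)

theorem sc_near (p : Tor d M) {x : Fin d → ℝ} (hx : x ∈ cell p) :
    |sc x - sc (pt p)| ≤ 4 * Real.pi * d / M := by
  have hM : (0 : ℝ) < M := by exact_mod_cast Nat.pos_of_ne_zero (NeZero.ne M)
  unfold sc
  rw [← Finset.sum_sub_distrib]
  refine (Finset.abs_sum_le_sum_abs _ _).trans ?_
  have h1 : ∀ i ∈ (Finset.univ : Finset (Fin d)),
      |2 * Real.cos (2 * Real.pi * x i) - 2 * Real.cos (2 * Real.pi * pt p i)| ≤
        4 * Real.pi / M := by
    intro i _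
    rw [← mul_sub, abs_mul, abs_two]
    have h2 := Real.abs_cos_sub_cos_le (2 * Real.pi * x i) (2 * Real.pi * pt p i)
    have h3 := hx i (Set.mem_univ i)
    have h4 : |2 * Real.pi * x i - 2 * Real.pi * pt p i| ≤ 2 * Real.pi / M := by
      rw [← mul_sub, abs_mul, abs_of_pos Real.two_pi_pos, abs_of_nonneg (by linarith [h3.1])]
      have h5 : x i - pt p i ≤ 1 / M := by linarith [h3.2]
      calc 2 * Real.pi * (x i - pt p i) ≤ 2 * Real.pi * (1 / M) :=
            mul_le_mul_of_nonneg_left h5 Real.two_pi_pos.le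
        _ = 2 * Real.pi / M := by rw [mul_one_div]
    have h6 : 4 * Real.pi / (M : ℝ) = 2 * (2 * Real.pi / M) := by ring
    rw [h6]
    exact mul_le_mul_of_nonneg_left (h2.trans h4) (by norm_num)
  refine (Finset.sum_le_card_nsmul _ _ _ h1).trans (le_of_eq ?_)
  rw [nsmul_eq_mul, Finset.card_univ, Fintype.card_fin]
  ring

theorem ker_near {η a b : ℝ} (hη : 0 < η) (h : |b - a| ≤ η / 2) : ker η a ≤ 4 * ker η b := by
  unfold ker
  rw [← mul_div_assoc, div_le_div_iff₀ (by positivity) (by positivity)]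
  have h1 : b ^ 2 ≤ 2 * a ^ 2 + 2 * (b - a) ^ 2 := by nlinarith [sq_nonneg (2 * a - b)]
  have h2 : (b - a) ^ 2 ≤ (η / 2) ^ 2 := sq_le_sq' (by linarith [(abs_le.1 h).1]) (abs_le.1 h).2
  have h3 : b ^ 2 + η ^ 2 ≤ 4 * (a ^ 2 + η ^ 2) := by nlinarith [sq_nonneg a]
  nlinarith

/-- the bound for all scales -/
theorem pm_ker_le (hd : 3 ≤ d) (E : ℝ) {η : ℝ} (hη : 0 < η) (hM : 8 * Real.pi * d ≤ η * M) :
    pm (fun p : Tor d M => ker η (es p - E)) ≤ 512 * Real.pi := by
  have hM0 : (0 : ℝ) < M := by exact_mod_cast Nat.pos_of_ne_zero (NeZero.ne M)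
  have hc : Continuous fun x : Fin d → ℝ => ker η (sc x - E) := by
    have h1 := continuous_ker hη
    have h2 := continuous_sc (d := d)
    fun_prop
  have hcs : Continuous fun θ : UnitAddTorus (Fin d) => ker η (sy θ - E) := by
    have h1 := continuous_ker hη
    have h2 := continuous_sy (d := d)
    fun_prop
  have hb : ∀ y, ker η y ≤ 1 / η := by
    intro y
    unfold ker
    rw [div_le_div_iff₀ (by positivity) hη]
    nlinarith [sq_nonneg y]
  have hcube : volume (Set.pi Set.univ fun _ : Fin d => Ioc (0 : ℝ) 1) < ⊤ := by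
    rw [volume_pi_pi]
    simp
  have hint : IntegrableOn (fun x : Fin d → ℝ => ker η (sc x - E))
      (Set.pi Set.univ fun _ => Ioc (0 : ℝ) 1) := by
    refine Measure.integrableOn_of_bounded (M := 1 / η) hcube.ne hc.aestronglyMeasurable ?_
    refine Filter.Eventually.of_forall fun x => ?_
    rw [Real.norm_eq_abs, abs_of_nonneg (ker_nonneg hη _)]
    exact hb _
  have hcell : ∀ p : Tor d M, ((M : ℝ) ^ d)⁻¹ * ker η (es p - E) ≤
      4 * ∫ x in cell p, ker η (sc x - E) := by
    intro p
    have h1 : ((M : ℝ) ^ d)⁻¹ * ker η (es p - E) = ∫ _ in cell p, ker η (es p - E) := by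
      rw [setIntegral_const, volume_cell, smul_eq_mul]
    rw [h1, ← integral_const_mul]
    have hfin : volume (cell p) ≠ ⊤ := ((measure_mono (cell_sub p)).trans_lt hcube).ne
    refine setIntegral_mono_on (integrableOn_const hfin) ((hint.mono_set (cell_sub p)).const_mul 4)
      (measurableSet_cell p) fun x hx => ?_
    apply ker_near hη
    rw [es_eq, sub_sub_sub_cancel_right]
    refine (sc_near p hx).trans ?_
    rw [div_le_iff₀ hM0]
    linarith
  have hU : ∑ p : Tor d M, ∫ x in cell p, ker η (sc x - E) ≤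
      ∫ x in Set.pi Set.univ fun _ : Fin d => Ioc (0 : ℝ) 1, ker η (sc x - E) := by
    rw [← integral_biUnion_finset Finset.univ (fun p _ => measurableSet_cell p)
      (fun p _ q _ h => cell_disj p q h) (fun p _ => hint.mono_set (cell_sub p))]
    refine setIntegral_mono_set hint (Filter.Eventually.of_forall fun x => ker_nonneg hη _) ?_
    refine Filter.Eventually.of_forall fun x hx => ?_
    have hx' := Set.mem_iUnion₂.1 hx
    obtain ⟨p, -, hp⟩ := hx'
    exact cell_sub p hp
  have hI : ∫ x in Set.pi Set.univ fun _ : Fin d => Ioc (0 : ℝ) 1, ker η (sc x - E) ≤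
      128 * Real.pi := by
    have h1 := integral_ker_le (d := d) hd hη E
    rw [integral_cov hcs] at h1
    simp only [sy_cov] at h1
    exact h1
  unfold pm
  rw [div_eq_inv_mul, Finset.mul_sum]
  calc ∑ p : Tor d M, ((M : ℝ) ^ d)⁻¹ * ker η (es p - E)
      ≤ ∑ p : Tor d M, 4 * ∫ x in cell p, ker η (sc x - E) := Finset.sum_le_sum fun p _ => hcell p
    _ = 4 * ∑ p : Tor d M, ∫ x in cell p, ker η (sc x - E) := (Finset.mul_sum _ _ _).symm
    _ ≤ 4 * (128 * Real.pi) := mul_le_mul_of_nonneg_left (hU.trans hI) (by norm_num)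
    _ = 512 * Real.pi := by ring

theorem pm_add (F G : Tor d M → ℝ) : pm (fun p => F p + G p) = pm F + pm G := by
  unfold pm
  rw [Finset.sum_add_distrib, add_div]

theorem pm_mul (c : ℝ) (F : Tor d M → ℝ) : pm (fun p => c * F p) = c * pm F := by
  unfold pm
  rw [← Finset.mul_sum, mul_div_assoc]

theorem pm_one : pm (fun _ : Tor d M => (1 : ℝ)) = 1 := by
  unfold pm
  have hM0 : (M : ℝ) ≠ 0 := by exact_mod_cast NeZero.ne M
  rw [Finset.sum_const, Finset.card_univ, Fintype.card_fun, ZMod.card, Fintype.card_fin,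
    nsmul_eq_mul, mul_one]
  push_cast
  exact div_self (pow_ne_zero _ hM0)

theorem pm_sum (n : ℕ) (F : ℕ → Tor d M → ℝ) :
    pm (fun p => ∑ k ∈ Finset.range n, F k p) = ∑ k ∈ Finset.range n, pm (F k) := by
  unfold pm
  rw [Finset.sum_comm, Finset.sum_div]

theorem pm_mono {F G : Tor d M → ℝ} (h : ∀ p, F p ≤ G p) : pm F ≤ pm G := by
  unfold pm
  exact div_le_div_of_nonneg_right (Finset.sum_le_sum fun p _ => h p) (by positivity)

theorem dsu : DsuStmt := by
  intro d hd
  have hpi := Real.pi_pos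
  have hdpos : (0 : ℝ) ≤ d := by positivity
  refine ⟨8 * Real.pi * d + (1 + 4096 * Real.pi), by nlinarith [mul_nonneg hpi.le hdpos],
    fun M _ E η hη hη1 hM => ?_⟩
  have hM0 : (0 : ℝ) < M := by exact_mod_cast Nat.pos_of_ne_zero (NeZero.ne M)
  have hM1 : 8 * Real.pi * d ≤ η * M := by
    rw [div_le_iff₀ hη] at hM
    nlinarith
  have hd8 : 0 ≤ 8 * Real.pi * d := by positivity
  refine ⟨?_, ?_⟩
  · have h1 := pm_ker_le (M := M) hd E hη hM1
    refine le_trans (b := 512 * Real.pi) h1 ?_
    linarith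
  · set n : ℕ := ⌈Real.logb 2 (1 / η)⌉₊ with hn
    have hl0 : 0 ≤ Real.log (1 / η) := Real.log_nonneg (by
      rw [le_div_iff₀ hη]; linarith)
    have hn1 : 1 ≤ 2 ^ n * η := by
      have h1 : Real.logb 2 (1 / η) ≤ n := Nat.le_ceil _
      have h2 : (1 / η) ≤ (2:ℝ) ^ (n:ℝ) := by
        rw [← Real.logb_le_iff_le_rpow (by norm_num) (by positivity)]
        exact h1
      rw [Real.rpow_natCast] at h2
      rw [div_le_iff₀ hη] at h2
      exact h2
    have hn2 : (n : ℝ) + 1 ≤ 2 * (1 + Real.log (1 / η)) := by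
      have h1 : (n : ℝ) < Real.logb 2 (1 / η) + 1 := by
        apply Nat.ceil_lt_add_one
        exact Real.logb_nonneg (by norm_num) (by rw [le_div_iff₀ hη]; linarith)
      have h2 : Real.logb 2 (1 / η) ≤ 2 * Real.log (1 / η) := by
        unfold Real.logb
        rw [div_le_iff₀ (Real.log_pos (by norm_num))]
        have := Real.log_two_gt_d9
        nlinarith
      linarith
    have h1 : pm (fun p : Tor d M => (Real.sqrt ((es p - E) ^ 2 + η ^ 2))⁻¹) ≤
        pm (fun p : Tor d M => 1 + 4 * ∑ k ∈ Finset.range (n + 1), ker (2 ^ k * η) (es p - E)) :=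
      pm_mono fun p => inv_sqrt_le hη hn1 _
    rw [pm_add, pm_mul, pm_one, pm_sum] at h1
    have h3 : ∑ k ∈ Finset.range (n + 1), pm (fun p : Tor d M => ker (2 ^ k * η) (es p - E)) ≤
        (n + 1) * (512 * Real.pi) := by
      refine (Finset.sum_le_sum fun k _ => pm_ker_le (M := M) hd E (by positivity) ?_).trans
        (le_of_eq ?_)
      · have h4 : (1 : ℝ) ≤ 2 ^ k := one_le_pow₀ (by norm_num)
        calc 8 * Real.pi * d ≤ η * M := hM1
          _ = 1 * (η * M) := (one_mul _).symm
          _ ≤ 2 ^ k * (η * M) := mul_le_mul_of_nonneg_right h4 (by positivity)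
          _ = 2 ^ k * η * M := by ring
      · rw [Finset.sum_const, Finset.card_range, nsmul_eq_mul]
        push_cast
        ring
    have h4 : (n + 1 : ℝ) * (512 * Real.pi) ≤ 2 * (1 + Real.log (1 / η)) * (512 * Real.pi) :=
      mul_le_mul_of_nonneg_right hn2 (by positivity)
    have h5 : pm (fun p : Tor d M => (Real.sqrt ((es p - E) ^ 2 + η ^ 2))⁻¹) ≤
        1 + 4 * (2 * (1 + Real.log (1 / η)) * (512 * Real.pi)) := by linarith
    refine h5.trans ?_
    nlinarith [mul_nonneg hd8 hl0]

end Pool.Agent.LE.QD.H38
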