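import Pool.Agent.LE.StmtsQD

/-! Beyond the mean free path, row MAS: concentration of the mass. -/

set_option autoImplicit false
set_option linter.unusedSectionVars false

open MeasureTheory ProbabilityTheory Function Filter

open scoped ENNReal BigOperators Topology NNReal ComplexOrder Matrix

noncomputable section

namespace Pool.Agent.LE.QD.H38

open Pool.Agent.Anderson hiding box mem_box card_box
open Pool.Agent.Loc Pool.Agent.Mob Pool.Agent.Helper54.Bal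
  Pool.Agent.Helper96.EXP Pool.Agent.BED
open Pool.Agent.LE.MN Pool.Agent.LE.CL Pool.Agent.LE.IR

/-! ### Cauchy-Schwarz -/

theorem cs_c {X : Type} (C : Finset X) (a b : X → ℂ) :
    ‖∑ y ∈ C, a y * b y‖ ^ 2 ≤ (∑ y ∈ C, ‖a y‖ ^ 2) * ∑ y ∈ C, ‖b y‖ ^ 2 := by
  have h1 : ‖∑ y ∈ C, a y * b y‖ ≤ ∑ y ∈ C, ‖a y‖ * ‖b y‖ := by
    refine (norm_sum_le _ _).trans (le_of_eq ?_)
    exact Finset.sum_congr rfl fun y _ => norm_mul _ _
  have h2 : (∑ y ∈ C, ‖a y‖ * ‖b y‖) ^ 2 ≤ (∑ y ∈ C, ‖a y‖ ^ 2) * ∑ y ∈ C, ‖b y‖ ^ 2 :=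
    Finset.sum_mul_sq_le_sq_mul_sq C _ _
  exact (pow_le_pow_left₀ (norm_nonneg _) h1 2).trans h2

section core

variable {X : Type} [Fintype X] [DecidableEq X]

theorem qsum (G : Matrix X X ℂ) (C : Finset X) {s2 κ : ℝ} (hκ : 0 ≤ κ)
    (row : ∀ x, ∑ y, ‖G x y‖ ^ 2 ≤ s2) (op : ∀ w : X → ℂ, n2 (G *ᵥ w) ≤ κ * n2 w) :
    ∑ w, ∑ y ∈ C, ‖∑ x ∈ C, G w x * (starRingEnd ℂ) (G y x)‖ ^ 2 ≤ κ * s2 * C.card := by
  rw [Finset.sum_comm]
  have h1 : ∀ y ∈ C, ∑ w, ‖∑ x ∈ C, G w x * (starRingEnd ℂ) (G y x)‖ ^ 2 ≤ κ * s2 := by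
    intro y _
    have h2 := op fun x => if x ∈ C then (starRingEnd ℂ) (G y x) else 0
    have h3 : n2 (G *ᵥ fun x => if x ∈ C then (starRingEnd ℂ) (G y x) else 0) =
        ∑ w, ‖∑ x ∈ C, G w x * (starRingEnd ℂ) (G y x)‖ ^ 2 := by
      unfold n2
      refine Finset.sum_congr rfl fun w _ => ?_
      have h4 : (G *ᵥ fun x => if x ∈ C then (starRingEnd ℂ) (G y x) else 0) w =
          ∑ x ∈ C, G w x * (starRingEnd ℂ) (G y x) := by
        show ∑ x, G w x * (if x ∈ C then (starRingEnd ℂ) (G y x) else 0) = _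
        simp only [mul_ite, mul_zero]
        rw [← Finset.sum_filter]
        refine Finset.sum_congr ?_ fun _ _ => rfl
        ext x
        simp
      rw [h4]
    have h5 : n2 (fun x => if x ∈ C then (starRingEnd ℂ) (G y x) else 0) ≤ s2 := by
      refine le_trans ?_ (row y)
      unfold n2
      refine Finset.sum_le_sum fun x _ => ?_
      by_cases hx : x ∈ C
      · simp only [if_pos hx, RCLike.norm_conj]
        exact le_rfl
      · simp only [if_neg hx, norm_zero]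
        exact (by norm_num : (0 : ℝ) ^ 2 ≤ 0).trans (sq_nonneg _)
    rw [h3] at h2
    exact h2.trans (mul_le_mul_of_nonneg_left h5 hκ)
  refine (Finset.sum_le_card_nsmul _ _ _ h1).trans (le_of_eq ?_)
  rw [nsmul_eq_mul]
  ring

theorem tsum_bd (G G' : Matrix X X ℂ) (C : Finset X) {s2 κ : ℝ} (hκ : 0 ≤ κ) (hs2 : 0 ≤ s2)
    (row : ∀ x, ∑ y, ‖G x y‖ ^ 2 ≤ s2) (row' : ∀ x, ∑ y, ‖G' x y‖ ^ 2 ≤ s2)
    (op : ∀ w : X → ℂ, n2 (G *ᵥ w) ≤ κ * n2 w) :
    ∑ w, ‖∑ y ∈ C, G' w y * ∑ x ∈ C, G w x * (starRingEnd ℂ) (G y x)‖ ^ 2 ≤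
      s2 * (κ * s2 * C.card) := by
  have h1 : ∀ w ∈ (Finset.univ : Finset X),
      ‖∑ y ∈ C, G' w y * ∑ x ∈ C, G w x * (starRingEnd ℂ) (G y x)‖ ^ 2 ≤
        s2 * ∑ y ∈ C, ‖∑ x ∈ C, G w x * (starRingEnd ℂ) (G y x)‖ ^ 2 := by
    intro w _
    refine (cs_c C _ _).trans (mul_le_mul_of_nonneg_right ?_ ?_)
    · refine le_trans ?_ (row' w)
      exact Finset.sum_le_sum_of_subset_of_nonneg (Finset.subset_univ C) fun _ _ _ => by positivity
    · exact Finset.sum_nonneg fun _ _ => by positivity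
  refine (Finset.sum_le_sum h1).trans ?_
  rw [← Finset.mul_sum]
  exact mul_le_mul_of_nonneg_left (qsum G C hκ row op) hs2

/-- the difference of the masses -/
theorem mass_diff (G G' : Matrix X X ℂ) (D : X → ℝ) (C : Finset X) {s2 κ : ℝ} (hκ : 0 ≤ κ)
    (hs2 : 0 ≤ s2) (sym : ∀ x y, G x y = G y x)
    (hres : G - G' = -(G * (Matrix.diagonal fun x => ((D x : ℝ) : ℂ)) * G'))
    (row : ∀ x, ∑ y, ‖G x y‖ ^ 2 ≤ s2) (row' : ∀ x, ∑ y, ‖G' x y‖ ^ 2 ≤ s2)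
    (op : ∀ w : X → ℂ, n2 (G *ᵥ w) ≤ κ * n2 w) (op' : ∀ w : X → ℂ, n2 (G' *ᵥ w) ≤ κ * n2 w) :
    |∑ x ∈ C, ∑ y ∈ C, ‖G x y‖ ^ 2 - ∑ x ∈ C, ∑ y ∈ C, ‖G' x y‖ ^ 2| ≤
      Real.sqrt (4 * (s2 * (κ * s2 * C.card))) * Real.sqrt (∑ x, D x ^ 2) := by
  set T1 : X → ℂ := fun w => ∑ y ∈ C, G' w y * ∑ x ∈ C, G w x * (starRingEnd ℂ) (G y x) with hT1
  set T2 : X → ℂ := fun w => ∑ x ∈ C, G w x * ∑ y ∈ C, G' w y * (starRingEnd ℂ) (G' x y) with hT2
  have hent : ∀ x y, G x y - G' x y = -∑ w, G x w * (D w : ℂ) * G' w y := by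
    intro x y
    have h1 := congrFun (congrFun hres x) y
    rw [Matrix.sub_apply, Matrix.neg_apply, Matrix.mul_apply] at h1
    rw [h1]
    congr 1
    refine Finset.sum_congr rfl fun w _ => ?_
    rw [Matrix.mul_diagonal]
  have hre : ∀ a b : ℂ, ‖a‖ ^ 2 - ‖b‖ ^ 2 = ((a - b) * (starRingEnd ℂ) (a + b)).re := by
    intro a b
    rw [← Complex.normSq_eq_norm_sq, ← Complex.normSq_eq_norm_sq, Complex.normSq_apply,
      Complex.normSq_apply, Complex.mul_re]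
    simp only [Complex.sub_re, Complex.sub_im, Complex.conj_re, Complex.conj_im, Complex.add_re,
      Complex.add_im]
    ring
  have hmain : ∑ x ∈ C, ∑ y ∈ C, ‖G x y‖ ^ 2 - ∑ x ∈ C, ∑ y ∈ C, ‖G' x y‖ ^ 2 =
      -(∑ w, (D w : ℂ) * (T1 w + T2 w)).re := by
    have h1 : ∑ x ∈ C, ∑ y ∈ C, ‖G x y‖ ^ 2 - ∑ x ∈ C, ∑ y ∈ C, ‖G' x y‖ ^ 2 =
        (∑ x ∈ C, ∑ y ∈ C, (G x y - G' x y) * (starRingEnd ℂ) (G x y + G' x y)).re := by
      rw [← Finset.sum_sub_distrib, Complex.re_sum]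
      refine Finset.sum_congr rfl fun x _ => ?_
      rw [← Finset.sum_sub_distrib, Complex.re_sum]
      exact Finset.sum_congr rfl fun y _ => hre _ _
    have h2 : ∑ x ∈ C, ∑ y ∈ C, (G x y - G' x y) * (starRingEnd ℂ) (G x y + G' x y) =
        -∑ w, (D w : ℂ) * (T1 w + T2 w) := by
      have h3 : ∀ w, (D w : ℂ) * (T1 w + T2 w) = ∑ x ∈ C, ∑ y ∈ C,
          (G x w * (D w : ℂ) * G' w y) * (starRingEnd ℂ) (G x y + G' x y) := by
        intro w
        have h4 : T1 w = ∑ x ∈ C, ∑ y ∈ C, G x w * G' w y * (starRingEnd ℂ) (G x y) := by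
          rw [hT1]
          simp only [Finset.mul_sum]
          rw [Finset.sum_comm]
          refine Finset.sum_congr rfl fun x _ => Finset.sum_congr rfl fun y _ => ?_
          rw [sym w x, sym y x]
          ring
        have h5 : T2 w = ∑ x ∈ C, ∑ y ∈ C, G x w * G' w y * (starRingEnd ℂ) (G' x y) := by
          rw [hT2]
          simp only [Finset.mul_sum]
          refine Finset.sum_congr rfl fun x _ => Finset.sum_congr rfl fun y _ => ?_
          rw [sym w x]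
          ring
        rw [h4, h5, ← Finset.sum_add_distrib, Finset.mul_sum]
        refine Finset.sum_congr rfl fun x _ => ?_
        rw [← Finset.sum_add_distrib, Finset.mul_sum]
        refine Finset.sum_congr rfl fun y _ => ?_
        rw [map_add]
        ring
      have h3' : ∑ w, (D w : ℂ) * (T1 w + T2 w) = ∑ w, ∑ x ∈ C, ∑ y ∈ C,
          (G x w * (D w : ℂ) * G' w y) * (starRingEnd ℂ) (G x y + G' x y) :=
        Finset.sum_congr rfl fun w _ => h3 w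
      have h3'' : ∑ w, ∑ x ∈ C, ∑ y ∈ C,
          (G x w * (D w : ℂ) * G' w y) * (starRingEnd ℂ) (G x y + G' x y) =
          ∑ x ∈ C, ∑ y ∈ C, ∑ w,
          (G x w * (D w : ℂ) * G' w y) * (starRingEnd ℂ) (G x y + G' x y) := by
        rw [Finset.sum_comm]
        exact Finset.sum_congr rfl fun x _ => Finset.sum_comm
      rw [h3', h3'', ← Finset.sum_neg_distrib]
      refine Finset.sum_congr rfl fun x _ => ?_
      rw [← Finset.sum_neg_distrib]
      refine Finset.sum_congr rfl fun y _ => ?_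
      rw [hent x y, neg_mul, Finset.sum_mul]
    rw [h1, h2, Complex.neg_re]
  have hT1b : ∑ w, ‖T1 w‖ ^ 2 ≤ s2 * (κ * s2 * C.card) := tsum_bd G G' C hκ hs2 row row' op
  have hT2b : ∑ w, ‖T2 w‖ ^ 2 ≤ s2 * (κ * s2 * C.card) := tsum_bd G' G C hκ hs2 row' row op'
  have hTb : ∑ w, ‖T1 w + T2 w‖ ^ 2 ≤ 4 * (s2 * (κ * s2 * C.card)) := by
    have h1 : ∀ w ∈ (Finset.univ : Finset X), ‖T1 w + T2 w‖ ^ 2 ≤ 2 * ‖T1 w‖ ^ 2 + 2 * ‖T2 w‖ ^ 2 := by
      intro w _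
      have h2 := norm_add_le (T1 w) (T2 w)
      have h3 : ‖T1 w + T2 w‖ ^ 2 ≤ (‖T1 w‖ + ‖T2 w‖) ^ 2 :=
        pow_le_pow_left₀ (norm_nonneg _) h2 2
      nlinarith [sq_nonneg (‖T1 w‖ - ‖T2 w‖)]
    refine (Finset.sum_le_sum h1).trans ?_
    rw [Finset.sum_add_distrib, ← Finset.mul_sum, ← Finset.mul_sum]
    linarith
  rw [hmain, abs_neg]
  refine (Complex.abs_re_le_norm _).trans ?_
  have h6 := cs_c (Finset.univ : Finset X) (fun w => (D w : ℂ)) fun w => T1 w + T2 w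
  have h7 : ∑ w, ‖((D w : ℝ) : ℂ)‖ ^ 2 = ∑ w, D w ^ 2 := by
    refine Finset.sum_congr rfl fun w _ => ?_
    rw [Complex.norm_real, Real.norm_eq_abs, sq_abs]
  rw [h7] at h6
  have h8 : (0 : ℝ) ≤ ∑ w, D w ^ 2 := Finset.sum_nonneg fun _ _ => sq_nonneg _
  rw [← Real.sqrt_mul' _ h8]
  apply Real.le_sqrt_of_sq_le
  refine h6.trans ?_
  rw [mul_comm]
  exact mul_le_mul_of_nonneg_right hTb h8

end core

theorem mas (hral : RalStmt) (hres : ResStmt) (hlcc : LccStmt) : MasStmt := by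
  intro d M _ v E η η₁ A B p r 𝒞 hη hη₁ hA hB hSob hpm hp hp0 hr hC
  have hη₁0 : 0 < η₁ := hη.trans_le hη₁
  set z : ℂ := ⟨E, η⟩ with hz
  have hzim : z.im = η := rfl
  set S : Set (Tor d M → ℝ) := {V | FBq E η₁ (1 / 4) V} with hS
  set s2 : ℝ := 4 / 3 * B * (η₁ / η ^ 2) with hs2
  have hs20 : 0 ≤ s2 := by positivity
  have hop : ∀ V : Tor d M → ℝ, ∀ w : Tor d M → ℂ, n2 (rs V z *ᵥ w) ≤ (η ^ 2)⁻¹ * n2 w := by
    intro V w
    have h1 := ((hral d M V z hη).2.2.2.1 w).1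
    rw [hzim] at h1
    rw [inv_mul_eq_div]
    exact h1
  have hrow : ∀ V ∈ S, ∀ x, ∑ y, ‖rs V z x y‖ ^ 2 ≤ s2 := fun V hV x =>
    (hres d M V E η η₁ A B hη hη₁ hA.le hSob hpm hV).2.1 x
  have hcont : ∀ C : Finset (Tor d M), Continuous fun V : Tor d M → ℝ => mss V z C := by
    intro C
    unfold mss
    refine continuous_finsetSum _ fun x _ => continuous_finsetSum _ fun y _ => ?_
    have h1 := (hral d M 0 z hη).2.2.2.2.2.2.2.2.2.1 x y
    fun_prop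
  have hbd : ∀ (C : Finset (Tor d M)) (V : Tor d M → ℝ), |mss V z C| ≤ C.card / η ^ 2 := by
    intro C V
    have h0 : 0 ≤ mss V z C := by
      unfold mss
      exact Finset.sum_nonneg fun x _ => Finset.sum_nonneg fun y _ => by positivity
    rw [abs_of_nonneg h0]
    unfold mss
    have h1 : ∀ x ∈ C, ∑ y ∈ C, ‖rs V z x y‖ ^ 2 ≤ 1 / η ^ 2 := by
      intro x _
      have h2 : ∑ y ∈ C, ‖rs V z x y‖ ^ 2 ≤ ∑ y, ‖rs V z x y‖ ^ 2 :=
        Finset.sum_le_sum_of_subset_of_nonneg (Finset.subset_univ C) fun _ _ _ => by positivity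
      have h3 := (hral d M V z hη).2.2.2.2.1 x
      have h4 := (hral d M V z hη).2.2.2.2.2.2.2.2.2.2.2 x x
      rw [hzim] at h3 h4
      have h5 : (rs V z x x).im ≤ 1 / η :=
        (le_abs_self _).trans ((Complex.abs_im_le_norm _).trans h4)
      refine h2.trans ?_
      rw [h3]
      calc (rs V z x x).im / η ≤ 1 / η / η := div_le_div_of_nonneg_right h5 hη.le
        _ = 1 / η ^ 2 := by rw [div_div, sq]
    refine (Finset.sum_le_card_nsmul _ _ _ h1).trans (le_of_eq ?_)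
    rw [nsmul_eq_mul]
    ring
  have hSc : (Measure.pi fun _ : Tor d M => gaussianReal 0 v) Sᶜ ≤ ENNReal.ofReal p := hp
  -- one set
  have hone : ∀ C ∈ 𝒞, gau d M v {V | V ∈ S ∧ (r + 2 * p / η ^ 2) * C.card <
      |mss V z C - ∫ W, mss W z C ∂(gau d M v)|} ≤
      ENNReal.ofReal (2 * Real.exp (-(r ^ 2 * C.card * η ^ 6 / (40 * B ^ 2 * η₁ ^ 2 * v)))) := by
    intro C hCC
    have hcard : (0 : ℝ) < C.card := by exact_mod_cast (hC C hCC).card_pos
    set ℓ : ℝ := Real.sqrt (8 * B ^ 2 * η₁ ^ 2 * C.card / η ^ 6) with hℓ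
    have hin : 0 < 8 * B ^ 2 * η₁ ^ 2 * C.card / η ^ 6 := by positivity
    have hℓ0 : 0 < ℓ := Real.sqrt_pos.2 hin
    have hℓ2 : ℓ ^ 2 = 8 * B ^ 2 * η₁ ^ 2 * C.card / η ^ 6 := Real.sq_sqrt hin.le
    have hlip : ∀ V ∈ S, ∀ V' ∈ S, |mss V z C - mss V' z C| ≤
        ℓ * Real.sqrt (∑ i, (V i - V' i) ^ 2) := by
      intro V hV V' hV'
      have h1 := mass_diff (rs V z) (rs V' z) (fun x => V x - V' x) C (s2 := s2)
        (κ := (η ^ 2)⁻¹) (by positivity) hs20 (hral d M V z hη).2.1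
        ((hral d M V z hη).2.2.2.2.2.1 V') (hrow V hV) (hrow V' hV') (hop V) (hop V')
      refine h1.trans (mul_le_mul_of_nonneg_right ?_ (Real.sqrt_nonneg _))
      apply Real.sqrt_le_sqrt
      have h2 : 4 * (s2 * ((η ^ 2)⁻¹ * s2 * C.card)) =
          64 / 9 * (B ^ 2 * η₁ ^ 2 * C.card / η ^ 6) := by
        rw [hs2]
        field_simp
        ring
      have h3 : 8 * B ^ 2 * η₁ ^ 2 * C.card / η ^ 6 = 8 * (B ^ 2 * η₁ ^ 2 * C.card / η ^ 6) := by
        ring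
      rw [h2, h3]
      exact mul_le_mul_of_nonneg_right (by norm_num) (by positivity)
    have h1 := hlcc (Tor d M) v S (fun V => mss V z C) (C.card / η ^ 2) ℓ p (r * C.card)
      (hcont C).measurable (hbd C) hℓ0 hlip hSc hp0 (by positivity)
    have h2 : r * C.card + 2 * (C.card / η ^ 2) * p = (r + 2 * p / η ^ 2) * C.card := by ring
    have h3 : (r * C.card) ^ 2 / (5 * ℓ ^ 2 * v) =
        r ^ 2 * C.card * η ^ 6 / (40 * B ^ 2 * η₁ ^ 2 * v) := by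
      rw [hℓ2]
      have hc0 : (C.card : ℝ) ≠ 0 := hcard.ne'
      by_cases hv : (v : ℝ) = 0
      · rw [hv]
        simp
      · field_simp
        ring
    rw [h2, h3] at h1
    exact h1
  have hsub : {V : Tor d M → ℝ | ¬ ∀ C ∈ 𝒞, mss V z C ≤
      (∫ W, mss W z C ∂(gau d M v)) + (r + 2 * p / η ^ 2) * C.card} ⊆
      Sᶜ ∪ ⋃ C ∈ 𝒞, {V | V ∈ S ∧ (r + 2 * p / η ^ 2) * C.card <
        |mss V z C - ∫ W, mss W z C ∂(gau d M v)|} := by
    intro V hV
    by_cases hVS : V ∈ S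
    · right
      have hV' : ¬ ∀ C ∈ 𝒞, mss V z C ≤
          (∫ W, mss W z C ∂(gau d M v)) + (r + 2 * p / η ^ 2) * C.card := hV
      push Not at hV'
      obtain ⟨C, hCC, hlt⟩ := hV'
      refine Set.mem_iUnion₂.2 ⟨C, hCC, hVS, ?_⟩
      refine lt_of_lt_of_le ?_ (le_abs_self _)
      linarith
    · left
      exact hVS
  refine (measure_mono hsub).trans ((measure_union_le _ _).trans ?_)
  rw [ENNReal.ofReal_add hp0 (Finset.sum_nonneg fun C _ => by positivity),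
    ENNReal.ofReal_sum_of_nonneg fun C _ => by positivity]
  refine add_le_add hSc ((measure_biUnion_finset_le _ _).trans ?_)
  exact Finset.sum_le_sum hone

end Pool.Agent.LE.QD.H38
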